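import Pool.Agent.X11.Shuffle

/-!
# MP_868b62_an, Q1: an injective measurable map `(0,2) → (0,1)` whose difference quotients have
approximate limit `+∞` in absolute value at every point
-/

namespace Pool.Agent.Results.MP_868b62_an.DigitShuffle

open MeasureTheory Set Filter Topology

/-- The approximate lower limit of `g` at `0` from the right, as in the problem: the supremum (in
`[-∞, ∞]`, with `sup ∅ = -∞`) of the real `t` such that `|{h ∈ (0,r) : g h < t}| / r → 0` as
`r → 0+`. -/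
noncomputable def apLiminf (g : ℝ → ℝ) : EReal :=
  sSup {e : EReal | ∃ t : ℝ, e = (t : EReal) ∧
    Tendsto (fun r : ℝ => (volume {h : ℝ | h ∈ Ioo 0 r ∧ g h < t}).toReal / r) (𝓝[>] 0) (𝓝 0)}

/-- **Answer to Q1: yes.**  There is a Borel measurable `φ`, injective on `(0,2)` and mapping `(0,2)`
into `(0,1)`, such that at every point `x` of `(0,2)` the approximate lower limit of
`|(φ (x + h) - φ x) / h|` as `h → 0+` is `+∞` (so in particular it is `≥ 1`). -/
theorem result : ∃ φ : ℝ → ℝ, Measurable φ ∧ InjOn φ (Ioo 0 2) ∧ MapsTo φ (Ioo 0 2) (Ioo 0 1) ∧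
    ∀ x ∈ Ioo (0 : ℝ) 2, apLiminf (fun h => |(φ (x + h) - φ x) / h|) = ⊤ := by
  refine ⟨Pool.Agent.X11.Shuffle.phi, Pool.Agent.X11.Shuffle.phi_meas,
    Pool.Agent.X11.Shuffle.phi_inj, fun x _ => Pool.Agent.X11.Shuffle.phi_mem x, ?_⟩
  intro x hx
  rw [EReal.eq_top_iff_forall_lt]
  intro y
  refine lt_of_lt_of_le (EReal.coe_lt_coe_iff.2 (lt_add_one y)) ?_
  apply le_sSup
  exact ⟨y + 1, rfl, Pool.Agent.X11.Shuffle.main hx.1 (y + 1)⟩

end Pool.Agent.Results.MP_868b62_an.DigitShuffle
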